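import Pool.Agent.V11281.F4.Main
import Pool.Agent.V11281.F4.Haus

/-!
# `F₄(C ⊕ D)` is a `k`-space and a `k_ℝ`-space
-/

set_option autoImplicit false

open Set Topology Filter
open Pool.Agent.V11281.F4

namespace Pool.Agent.Results.MP_c880a5_gt.FourKSpace

universe u

/-- For every discrete space `D` and a convergent sequence `C` with its limit, the space
`F₄(C ⊕ D)` is a `k`-space and a `k_ℝ`-space. -/
theorem result (D : Type u) [TopologicalSpace D] [DiscreteTopology D] :
    IsKSpace (Fn (OnePoint ℕ ⊕ D) 4) ∧ IsKR (Fn (OnePoint ℕ ⊕ D) 4) :=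
  ⟨isKSpace_F4, isKSpace_F4.isKR⟩

end Pool.Agent.Results.MP_c880a5_gt.FourKSpace
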